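import Pool.Agent.Lib.MP_3f465e_co.Bound
import Pool.Agent.Lib.MP_3f465e_co.Melchior

/-!
Every arrangement of `n ≥ 10` lines in the real projective plane which is neither a pencil nor a
near-pencil has at least `2 n - 4` vertices.
-/

namespace Pool.Agent.Results.MP_3f465e_co.VertexBound

open Module Pool.Agent.Lib.MP_3f465e_co

open scoped LinearAlgebra.Projectivization

/-- A 2-arrangement: at least three lines of the real projective plane, not all of them through a
common point. A point is an element of `ℙ ℝ (Fin 3 → ℝ)`, a line is a two-dimensional subspace of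
`ℝ³`, and the point `p` lies on the line `L` when `p.submodule ≤ L`. -/
def IsArrangement (A : Finset (Submodule ℝ (Fin 3 → ℝ))) : Prop :=
  3 ≤ A.card ∧ (∀ L ∈ A, finrank ℝ L = 2) ∧ ¬ ∃ p : ℙ ℝ (Fin 3 → ℝ), ∀ L ∈ A, p.submodule ≤ L

/-- The vertices: the points on at least two lines of the arrangement. -/
def vertices (A : Finset (Submodule ℝ (Fin 3 → ℝ))) : Set (ℙ ℝ (Fin 3 → ℝ)) :=
  {p | ∃ L ∈ A, ∃ L' ∈ A, L ≠ L' ∧ p.submodule ≤ L ∧ p.submodule ≤ L'}

/-- A near-pencil: all lines but one pass through a common point, and the remaining line does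
not. -/
def IsNearPencil (A : Finset (Submodule ℝ (Fin 3 → ℝ))) : Prop :=
  ∃ p : ℙ ℝ (Fin 3 → ℝ), ∃ L ∈ A, ¬ p.submodule ≤ L ∧ ∀ L' ∈ A, L' ≠ L → p.submodule ≤ L'

lemma exists_functional (L : Submodule ℝ (Fin 3 → ℝ)) (hL : finrank ℝ L = 2) :
    ∃ g : (Fin 3 → ℝ) →ₗ[ℝ] ℝ, g ≠ 0 ∧ LinearMap.ker g = L := by
  have hlt : L < ⊤ := by
    rw [lt_top_iff_ne_top]
    rintro rfl
    rw [finrank_top, finrank_fin_fun] at hL
    omega
  obtain ⟨g, hg, hle⟩ := Submodule.exists_le_ker_of_lt_top L hlt
  refine ⟨g, hg, ?_⟩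
  symm
  apply Submodule.eq_of_le_of_finrank_eq hle
  obtain ⟨u, hu⟩ := exists_apply_ne hg
  have h1 := finrank_inf_ker (⊤ : Submodule ℝ (Fin 3 → ℝ)) g ⟨u, Submodule.mem_top, hu⟩
  rw [top_inf_eq, finrank_top, finrank_fin_fun] at h1
  omega

/-- The main theorem. -/
theorem result (A : Finset (Submodule ℝ (Fin 3 → ℝ))) (hA : IsArrangement A)
    (hn : 10 ≤ A.card) (hnp : ¬ IsNearPencil A) :
    2 * A.card - 4 ≤ (vertices A).ncard := by
  classical
  obtain ⟨-, hdim, hpen⟩ := hA
  -- functionals
  have hex : ∀ L : Submodule ℝ (Fin 3 → ℝ), ∃ g : (Fin 3 → ℝ) →ₗ[ℝ] ℝ,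
      L ∈ A → g ≠ 0 ∧ LinearMap.ker g = L := by
    intro L
    by_cases hL : L ∈ A
    · obtain ⟨g, h1, h2⟩ := exists_functional L (hdim L hL)
      exact ⟨g, fun _ => ⟨h1, h2⟩⟩
    · exact ⟨0, fun h => absurd h hL⟩
  choose f hf using hex
  have hker : ∀ L ∈ A, LinearMap.ker (f L) = L := fun L hL => (hf L hL).2
  have harr : Arr f A := by
    refine ⟨finrank_fin_fun ℝ, fun L hL => (hf L hL).1, ?_, ?_⟩
    · intro i hi j hj hij
      rw [hker i hi, hker j hj]
      exact hij
    · intro u hu
      by_contra hu0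
      apply hpen
      refine ⟨Projectivization.mk ℝ u hu0, fun L hL => ?_⟩
      rw [Projectivization.submodule_mk, Submodule.span_singleton_le_iff_mem, ← hker L hL]
      exact hu L hL
  have hmel := melchior harr (by omega)
  set V := Vtx f A with hV
  have hVmem : ∀ v, v ∈ V ↔ ∃ i ∈ A, ∃ j ∈ A, i ≠ j ∧ i ⊓ j = v := by
    intro v
    rw [hV, mem_Vtx]
    constructor
    · rintro ⟨i, hi, j, hj, hij, h⟩
      rw [hker i hi, hker j hj] at h
      exact ⟨i, hi, j, hj, hij, h⟩
    · rintro ⟨i, hi, j, hj, hij, h⟩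
      refine ⟨i, hi, j, hj, hij, ?_⟩
      rw [hker i hi, hker j hj]
      exact h
  have hVrank : ∀ v ∈ V, finrank ℝ v = 1 := fun v hv => harr.finrank_vtx hv
  have hVeq : ∀ v ∈ V, ∀ i ∈ A, ∀ j ∈ A, i ≠ j → v ≤ i → v ≤ j → v = i ⊓ j := by
    intro v hv i hi j hj hij h1 h2
    have := harr.eq_inf hv hi hj hij (by rw [hker i hi]; exact h1) (by rw [hker j hj]; exact h2)
    rwa [hker i hi, hker j hj] at this
  have hdeg : ∀ v, deg A (fun v L => v ≤ L) v = mult f A v := by
    intro v
    unfold deg mult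
    congr 1
    apply Finset.filter_congr
    intro L hL
    rw [hker L hL]
  -- the incidence structure
  have hinc : Inc A V (fun v L => v ≤ L) := by
    refine ⟨?_, ?_, ?_⟩
    · intro a ha b hb hab
      exact ⟨a ⊓ b, (hVmem _).2 ⟨a, ha, b, hb, hab, rfl⟩, inf_le_left, inf_le_right⟩
    · intro v hv w hw hvw a ha b hb h1 h2 h3 h4
      by_contra hab
      exact hvw ((hVeq v hv a ha b hb hab h1 h2).trans (hVeq w hw a ha b hb hab h3 h4).symm)
    · intro v hv
      obtain ⟨i, hi, j, hj, hij, rfl⟩ := (hVmem v).1 hv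
      unfold deg
      rw [← Finset.card_pair hij]
      apply Finset.card_le_card
      intro l hl
      simp only [Finset.mem_insert, Finset.mem_singleton] at hl
      rw [Finset.mem_filter]
      rcases hl with rfl | rfl
      · exact ⟨hi, inf_le_left⟩
      · exact ⟨hj, inf_le_right⟩
  -- no point on `n - 1` or more lines
  have hsmall : ∀ v ∈ V, deg A (fun v L => v ≤ L) v + 2 ≤ A.card := by
    intro v hv
    by_contra hcon
    push Not at hcon
    have hsum : (A.filter (fun L => v ≤ L)).card + (A.filter (fun L => ¬ v ≤ L)).card = A.card :=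
      Finset.card_filter_add_card_filter_not _
    have hle : (A.filter (fun L => ¬ v ≤ L)).card ≤ 1 := by
      have : deg A (fun v L => v ≤ L) v = (A.filter (fun L => v ≤ L)).card := rfl
      omega
    have hsub : (Projectivization.mk'' v (hVrank v hv)).submodule = v :=
      Projectivization.submodule_mk'' v (hVrank v hv)
    rcases Nat.le_one_iff_eq_zero_or_eq_one.1 hle with h0 | h1
    · rw [Finset.card_eq_zero, Finset.filter_eq_empty_iff] at h0
      apply hpen
      refine ⟨Projectivization.mk'' v (hVrank v hv), fun L hL => ?_⟩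
      rw [hsub]
      exact not_not.1 (h0 hL)
    · obtain ⟨L, hL⟩ := Finset.card_eq_one.1 h1
      have hLm : L ∈ A.filter (fun L => ¬ v ≤ L) := by rw [hL]; exact Finset.mem_singleton_self L
      rw [Finset.mem_filter] at hLm
      apply hnp
      refine ⟨Projectivization.mk'' v (hVrank v hv), L, hLm.1, ?_, ?_⟩
      · rw [hsub]; exact hLm.2
      · intro L' hL' hne
        rw [hsub]
        by_contra hvL'
        have : L' ∈ A.filter (fun L => ¬ v ≤ L) := Finset.mem_filter.2 ⟨hL', hvL'⟩
        rw [hL, Finset.mem_singleton] at this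
        exact hne this
  have hM : ∑ v ∈ V, deg A (fun v L => v ≤ L) v + 3 ≤ 3 * V.card := by
    rw [Finset.sum_congr rfl fun v _ => hdeg v]
    exact hmel
  have hbound := hinc.bound hM hsmall hn
  -- transfer to the projective plane
  have himage : (fun p : ℙ ℝ (Fin 3 → ℝ) => p.submodule) '' vertices A = (V : Set _) := by
    ext v
    simp only [Set.mem_image, Finset.mem_coe, hVmem]
    constructor
    · rintro ⟨p, ⟨i, hi, j, hj, hij, h1, h2⟩, rfl⟩
      refine ⟨i, hi, j, hj, hij, ?_⟩
      symm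
      apply Submodule.eq_of_le_of_finrank_eq (le_inf h1 h2)
      rw [p.finrank_submodule]
      exact (hVrank _ ((hVmem _).2 ⟨i, hi, j, hj, hij, rfl⟩)).symm
    · rintro ⟨i, hi, j, hj, hij, rfl⟩
      have hr := hVrank _ ((hVmem _).2 ⟨i, hi, j, hj, hij, rfl⟩)
      refine ⟨Projectivization.mk'' _ hr, ⟨i, hi, j, hj, hij, ?_, ?_⟩,
        Projectivization.submodule_mk'' _ hr⟩
      · rw [Projectivization.submodule_mk'']; exact inf_le_left
      · rw [Projectivization.submodule_mk'']; exact inf_le_right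
  have hcard : (vertices A).ncard = V.card := by
    rw [← Set.ncard_coe_finset, ← himage, Set.ncard_image_of_injective]
    exact Projectivization.submodule_injective
  rw [hcard]
  omega

end Pool.Agent.Results.MP_3f465e_co.VertexBound
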